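import Mathlib

set_option autoImplicit false

/-!
# Distances in blow-ups of small graphs, and the characteristic polynomials of their distance matrices
-/

namespace Pool.Agent.Q107.DSP

open Matrix Polynomial

theorem le_walk {V : Type} {G : SimpleGraph V} {d : V → V → ℕ}
    (h1 : ∀ x y z, G.Adj y z → d x z ≤ d x y + 1) (x : V) {u v : V} (p : G.Walk u v) :
    d x v ≤ d x u + p.length := by
  induction p with
  | nil => simp
  | cons h p ih =>
    have := h1 x _ _ h
    rw [SimpleGraph.Walk.length_cons]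
    omega

theorem exists_walk {V : Type} {G : SimpleGraph V} {d : V → V → ℕ} (h0 : ∀ x, d x x = 0)
    (h2 : ∀ x z, x ≠ z → ∃ y, G.Adj y z ∧ d x y + 1 = d x z) (x : V) :
    ∀ (m : ℕ) (z : V), d x z = m → ∃ p : G.Walk x z, p.length = m := by
  intro m
  induction m with
  | zero =>
    intro z hz
    by_cases h : x = z
    · subst h
      exact ⟨SimpleGraph.Walk.nil, rfl⟩
    · obtain ⟨y, _, hy⟩ := h2 x z h
      omega
  | succ m ih =>
    intro z hz
    have h : x ≠ z := by
      rintro rfl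
      rw [h0] at hz
      omega
    obtain ⟨y, hy1, hy2⟩ := h2 x z h
    obtain ⟨p, hp⟩ := ih y (by omega)
    exact ⟨p.concat hy1, by rw [SimpleGraph.Walk.length_concat, hp]⟩

theorem dist_eq {V : Type} {G : SimpleGraph V} {d : V → V → ℕ} (h0 : ∀ x, d x x = 0)
    (h1 : ∀ x y z, G.Adj y z → d x z ≤ d x y + 1)
    (h2 : ∀ x z, x ≠ z → ∃ y, G.Adj y z ∧ d x y + 1 = d x z) (x z : V) : G.dist x z = d x z := by
  obtain ⟨p, hp⟩ := exists_walk h0 h2 x _ z rfl
  apply le_antisymm
  · rw [← hp]
    exact SimpleGraph.dist_le p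
  · obtain ⟨q, hq⟩ := SimpleGraph.Reachable.exists_walk_length_eq_dist ⟨p⟩
    have := le_walk h1 x q
    rw [h0] at this
    omega

theorem connected_of {V : Type} [Nonempty V] {G : SimpleGraph V} {d : V → V → ℕ} (h0 : ∀ x, d x x = 0)
    (h2 : ∀ x z, x ≠ z → ∃ y, G.Adj y z ∧ d x y + 1 = d x z) : G.Connected := by
  rw [SimpleGraph.connected_iff]
  refine ⟨fun x z => ?_, inferInstance⟩
  obtain ⟨p, _⟩ := exists_walk h0 h2 x _ z rfl
  exact ⟨p⟩

/-- the matrix `M (c x) (c y) - 2 I` has the characteristic polynomial of the small matrix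
`M diag(a)`, up to powers of `X`, shifted by `2` -/
theorem charpoly_blow {n k : ℕ} (c : Fin n → Fin k) (M : Matrix (Fin k) (Fin k) ℝ)
    (D : Matrix (Fin n) (Fin n) ℝ) (hD : ∀ x y, D x y = M (c x) (c y) - (if x = y then 2 else 0))
    (A : Matrix (Fin k) (Fin k) ℝ)
    (hA : ∀ i j, A i j = M i j * ((Finset.univ.filter (fun x => c x = j)).card : ℝ)) :
    X ^ k * (D + Matrix.scalar (Fin n) 2).charpoly = X ^ n * A.charpoly := by
  classical
  let P : Matrix (Fin n) (Fin k) ℝ := Matrix.of fun x i => if c x = i then 1 else 0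
  let P' : Matrix (Fin k) (Fin n) ℝ := Matrix.of fun i x => if c x = i then 1 else 0
  have hP : ∀ x i, P x i = if c x = i then 1 else 0 := fun _ _ => rfl
  have hP' : ∀ i x, P' i x = if c x = i then 1 else 0 := fun _ _ => rfl
  have hMP : ∀ i x, (M * P') i x = M i (c x) := by
    intro i x
    rw [Matrix.mul_apply, Finset.sum_eq_single (c x)]
    · rw [hP', if_pos rfl, mul_one]
    · intro j _ hj
      rw [hP', if_neg (Ne.symm hj), mul_zero]
    · simp
  have h1 : D + Matrix.scalar (Fin n) 2 = P * (M * P') := by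
    ext x y
    rw [Matrix.add_apply, hD, Matrix.mul_apply, Finset.sum_eq_single (c x)]
    · rw [hP, if_pos rfl, one_mul, hMP, Matrix.scalar_apply, Matrix.diagonal_apply]
      ring
    · intro j _ hj
      rw [hP, if_neg (Ne.symm hj), zero_mul]
    · simp
  have h2 : (M * P') * P = A := by
    ext i j
    rw [Matrix.mul_apply, hA]
    have h3 : ∀ x ∈ Finset.univ, (M * P') i x * P x j = if c x = j then M i j else 0 := by
      intro x _
      rw [hMP, hP]
      split_ifs with h
      · rw [h, mul_one]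
      · rw [mul_zero]
    rw [Finset.sum_congr rfl h3, ← Finset.sum_filter, Finset.sum_const, nsmul_eq_mul]
    ring
  have h3 := Matrix.charpoly_mul_comm' P (M * P')
  rw [← h1, h2, Fintype.card_fin, Fintype.card_fin] at h3
  exact h3

theorem blow_dist {n k : ℕ} (hn : 0 < n) (c : Fin n → Fin k) (m : Fin k → Fin k → ℕ)
    (r : Fin k → Fin n) (hr : ∀ j, c (r j) = j) (G : SimpleGraph (Fin n))
    (hG : ∀ x y, G.Adj x y ↔ m (c x) (c y) = 1) (hT : ∀ i j l, m j l = 1 → m i l ≤ m i j + 1)
    (hE : ∀ i l, m i l ≠ 1 → ∃ j, m j l = 1 ∧ m i j + 1 = m i l ∧ j ≠ i) :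
    G.Connected ∧ ∀ x y, G.dist x y = if x = y then 0 else m (c x) (c y) := by
  have h0 : ∀ x, (if x = x then 0 else m (c x) (c x)) = 0 := by intro x; simp
  have h1 : ∀ x y z : Fin n, G.Adj y z → (if x = z then 0 else m (c x) (c z)) ≤
      (if x = y then 0 else m (c x) (c y)) + 1 := by
    intro x y z h
    rw [hG] at h
    by_cases hxz : x = z
    · rw [if_pos hxz]; omega
    · rw [if_neg hxz]
      by_cases hxy : x = y
      · rw [if_pos hxy, hxy, h]
      · rw [if_neg hxy]
        exact hT _ _ _ h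
  have h2 : ∀ x z : Fin n, x ≠ z → ∃ y, G.Adj y z ∧
      (if x = y then 0 else m (c x) (c y)) + 1 = if x = z then 0 else m (c x) (c z) := by
    intro x z hxz
    rw [if_neg hxz]
    by_cases h : m (c x) (c z) = 1
    · exact ⟨x, (hG _ _).2 h, by rw [if_pos rfl, h]⟩
    · obtain ⟨j, hj1, hj2, hj3⟩ := hE _ _ h
      refine ⟨r j, (hG _ _).2 (by rw [hr, hj1]), ?_⟩
      rw [if_neg, hr, hj2]
      rintro rfl
      exact hj3 (hr j).symm
  have : Nonempty (Fin n) := ⟨⟨0, hn⟩⟩
  exact ⟨connected_of h0 h2, dist_eq h0 h1 h2⟩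

end Pool.Agent.Q107.DSP
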