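import Pool.Agent.Q107.DSP.Main

set_option autoImplicit false

/-!
# The two graphs are cospectral
-/

namespace Pool.Agent.Q107.DSP

open Matrix Polynomial

theorem cancel {R : Type} [CommRing R] [IsDomain R] (P Q A B Y : R[X]) (h1 : X ^ 5 * P = Y * A)
    (h2 : X ^ 4 * Q = Y * B) (h3 : A = X * B) : P = Q := by
  apply mul_left_cancel₀ (pow_ne_zero 5 (X_ne_zero (R := R)))
  linear_combination h1 + Y * h3 - X * h2

theorem shift (D D' : Matrix (Fin 20) (Fin 20) ℝ)
    (h : (D + Matrix.scalar (Fin 20) 2).charpoly = (D' + Matrix.scalar (Fin 20) 2).charpoly) :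
    D.charpoly = D'.charpoly := by
  have e : ∀ D : Matrix (Fin 20) (Fin 20) ℝ, D.charpoly =
      (D + Matrix.scalar (Fin 20) 2).charpoly.comp (X + C 2) := by
    intro D
    rw [← Matrix.charpoly_sub_scalar, add_sub_cancel_right]
  rw [e D, e D', h]

theorem char₁₂ : A₁.charpoly = X * A₂.charpoly := by
  rw [char₁, char₂]
  ring

theorem cospectral_aux : (DM G₁ + Matrix.scalar (Fin 20) 2).charpoly =
    (DM G₂ + Matrix.scalar (Fin 20) 2).charpoly :=
  cancel _ _ _ _ _ cp₁ cp₂ char₁₂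

theorem cospectral : (DM G₁).charpoly = (DM G₂).charpoly :=
  shift (DM G₁) (DM G₂) cospectral_aux

theorem bip₂ : G₂.Colorable 2 := by
  refine ⟨SimpleGraph.Coloring.mk (fun x => (![0, 1, 0, 1] : Fin 4 → Fin 2) (c₂ x)) ?_⟩
  intro x y h
  have key : ∀ i j : Fin 4, m₂ i j = 1 →
      (![0, 1, 0, 1] : Fin 4 → Fin 2) i ≠ (![0, 1, 0, 1] : Fin 4 → Fin 2) j := by decide
  exact key _ _ h

theorem not_bip₁ : ¬ G₁.Colorable 2 := by
  rintro ⟨f⟩
  have h1 : G₁.Adj 0 1 := by show m₁ (c₁ 0) (c₁ 1) = 1; decide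
  have h2 : G₁.Adj 0 12 := by show m₁ (c₁ 0) (c₁ 12) = 1; decide
  have h3 : G₁.Adj 1 12 := by show m₁ (c₁ 1) (c₁ 12) = 1; decide
  have k1 := f.valid h1
  have k2 := f.valid h2
  have k3 := f.valid h3
  revert k1 k2 k3
  generalize f 0 = a
  generalize f 1 = b
  generalize f 12 = c
  revert a b c
  decide

end Pool.Agent.Q107.DSP
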