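import Pool.Agent.Q107.DSP.Basic

set_option autoImplicit false

/-!
# Two distance-cospectral graphs on `20` vertices, one bipartite and one with a triangle
-/

namespace Pool.Agent.Q107.DSP

open Matrix Polynomial

/-- classes of sizes `1, 1, 2, 8, 8` -/
def c₁ : Fin 20 → Fin 5 := ![0, 1, 2, 2, 3, 3, 3, 3, 3, 3, 3, 3, 4, 4, 4, 4, 4, 4, 4, 4]

/-- classes of sizes `2, 14, 1, 3` -/
def c₂ : Fin 20 → Fin 4 := ![0, 0, 1, 1, 1, 1, 1, 1, 1, 1, 1, 1, 1, 1, 1, 1, 2, 3, 3, 3]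

/-- distances of the small graph with the edges `01, 03, 04, 12, 14, 23` (`2` on the diagonal) -/
def m₁ : Fin 5 → Fin 5 → ℕ :=
  ![![2, 1, 2, 1, 1], ![1, 2, 1, 2, 1], ![2, 1, 2, 1, 2], ![1, 2, 1, 2, 2], ![1, 1, 2, 2, 2]]

/-- distances of the path with the edges `30, 01, 12` (`2` on the diagonal) -/
def m₂ : Fin 4 → Fin 4 → ℕ :=
  ![![2, 1, 2, 1], ![1, 2, 1, 2], ![2, 1, 2, 3], ![1, 2, 3, 2]]

def d₁ (x y : Fin 20) : ℕ := if x = y then 0 else m₁ (c₁ x) (c₁ y)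

def d₂ (x y : Fin 20) : ℕ := if x = y then 0 else m₂ (c₂ x) (c₂ y)

/-- the graph with a triangle: `x`, `y` are adjacent when their classes are -/
def G₁ : SimpleGraph (Fin 20) where
  Adj x y := m₁ (c₁ x) (c₁ y) = 1
  symm := ⟨by unfold m₁ c₁; decide⟩
  loopless := ⟨by unfold m₁ c₁; decide⟩

/-- the bipartite graph -/
def G₂ : SimpleGraph (Fin 20) where
  Adj x y := m₂ (c₂ x) (c₂ y) = 1
  symm := ⟨by unfold m₂ c₂; decide⟩
  loopless := ⟨by unfold m₂ c₂; decide⟩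

theorem dist₁ : G₁.Connected ∧ ∀ x y, G₁.dist x y = if x = y then 0 else m₁ (c₁ x) (c₁ y) :=
  blow_dist (by norm_num) c₁ m₁ ![0, 1, 2, 4, 12] (by decide) G₁ (fun _ _ => Iff.rfl) (by decide)
    (by decide)

theorem dist₂ : G₂.Connected ∧ ∀ x y, G₂.dist x y = if x = y then 0 else m₂ (c₂ x) (c₂ y) :=
  blow_dist (by norm_num) c₂ m₂ ![0, 2, 16, 17] (by decide) G₂ (fun _ _ => Iff.rfl) (by decide)
    (by decide)

def A₁ : Matrix (Fin 5) (Fin 5) ℝ :=
  !![2, 1, 4, 8, 8; 1, 2, 2, 16, 8; 2, 1, 4, 8, 16; 1, 2, 2, 16, 16; 1, 1, 4, 16, 16]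

def A₂ : Matrix (Fin 4) (Fin 4) ℝ :=
  !![4, 14, 2, 3; 2, 28, 1, 6; 4, 14, 2, 9; 2, 28, 3, 6]

theorem char₁ : A₁.charpoly = X ^ 5 - 40 * X ^ 4 + 129 * X ^ 3 + 384 * X ^ 2 - 1008 * X := by
  apply Polynomial.funext
  intro t
  rw [Matrix.eval_charpoly]
  simp [A₁, Matrix.det_succ_row_zero, Fin.sum_univ_succ, Fin.succAbove]
  ring

theorem char₂ : A₂.charpoly = X ^ 4 - 40 * X ^ 3 + 129 * X ^ 2 + 384 * X - 1008 := by
  apply Polynomial.funext
  intro t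
  rw [Matrix.eval_charpoly]
  simp [A₂, Matrix.det_succ_row_zero, Fin.sum_univ_succ, Fin.succAbove]
  ring

/-- the distance matrix -/
noncomputable def DM (G : SimpleGraph (Fin 20)) : Matrix (Fin 20) (Fin 20) ℝ :=
  Matrix.of fun x y => (G.dist x y : ℝ)

theorem DM_apply (G : SimpleGraph (Fin 20)) (x y : Fin 20) : DM G x y = (G.dist x y : ℝ) := rfl

theorem cp₁ : X ^ 5 * (DM G₁ + Matrix.scalar (Fin 20) 2).charpoly = X ^ 20 * A₁.charpoly := by
  refine charpoly_blow c₁ (Matrix.of fun i j => (m₁ i j : ℝ)) _ ?_ A₁ ?_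
  · intro x y
    have hd : ∀ i, m₁ i i = 2 := by decide
    rw [DM_apply, Matrix.of_apply, dist₁.2]
    split_ifs with h
    · rw [h, hd]
      norm_num
    · simp
  · have hc : ∀ j, (Finset.univ.filter (fun x => c₁ x = j)).card = ![1, 1, 2, 8, 8] j := by decide
    intro i j
    rw [hc, Matrix.of_apply]
    fin_cases i <;> fin_cases j <;> norm_num [A₁, m₁]

theorem cp₂ : X ^ 4 * (DM G₂ + Matrix.scalar (Fin 20) 2).charpoly = X ^ 20 * A₂.charpoly := by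
  refine charpoly_blow c₂ (Matrix.of fun i j => (m₂ i j : ℝ)) _ ?_ A₂ ?_
  · intro x y
    have hd : ∀ i, m₂ i i = 2 := by decide
    rw [DM_apply, Matrix.of_apply, dist₂.2]
    split_ifs with h
    · rw [h, hd]
      norm_num
    · simp
  · have hc : ∀ j, (Finset.univ.filter (fun x => c₂ x = j)).card = ![2, 14, 1, 3] j := by decide
    intro i j
    rw [hc, Matrix.of_apply]
    fin_cases i <;> fin_cases j <;> norm_num [A₂, m₂]

end Pool.Agent.Q107.DSP
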